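import Pool.Agent.W251.EX.Out10

/-!
The polynomial values `(2 q m)^2 + 1`, `q` a prime, `m > 1`, considered by Ankeny, Chowla and Hasse:
for every modulus `k` each residue class of the number of prime factors contains many of the
squarefree ones, and the numbers of prime factors of the two factors `d`, `d'` of the factorisations
`d d' = (2 q m)^2 + 1` are equidistributed modulo `k`.
-/

set_option autoImplicit false

namespace Pool.Agent.Results.MP_4b1228_nt.SquarefreeResidues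

open Finset Filter ArithmeticFunction

open scoped Classical in
/-- the pairs `(d, d')` with `s₁ X < d ≤ s₂ X`, `s₃ X < d' ≤ s₄ X` and `d d' = (2 q m)^2 + 1`
squarefree, `m > 1` -/
noncomputable def pairs (q : ℕ) (s₁ s₂ s₃ s₄ : ℝ) (X : ℕ) : Finset (ℕ × ℕ) :=
  (Icc 1 X ×ˢ Icc 1 X).filter (fun p : ℕ × ℕ => Squarefree (p.1 * p.2) ∧
    (∃ m : ℕ, 1 < m ∧ p.1 * p.2 = (2 * q * m) ^ 2 + 1) ∧
    (s₁ * X < p.1 ∧ p.1 ≤ s₂ * X ∧ s₃ * X < p.2 ∧ p.2 ≤ s₄ * X))

open scoped Classical in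
/-- the number of the integers `n ≤ X`, `n = 2 q m`, `m > 1`, such that `n^2 + 1` is squarefree and
the number of its prime factors is congruent to `j` modulo `k` -/
noncomputable def count (q k j X : ℕ) : ℕ :=
  ((Icc 1 X).filter (fun n : ℕ => (∃ m : ℕ, 1 < m ∧ n = 2 * q * m) ∧ Squarefree (n ^ 2 + 1) ∧
    cardFactors (n ^ 2 + 1) ≡ j [MOD k])).card

open scoped Classical in
/-- the set of the positive integers `X` with `P X` has logarithmic density `0` -/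
def LogNull (P : ℕ → Prop) : Prop :=
  Tendsto (fun Z : ℕ => (∑ X ∈ (Icc 1 Z).filter P, 1 / (X : ℝ)) / Real.log Z) atTop (nhds 0)

open scoped Classical in
/-- Let `q` be a prime and `k ≥ 1`.

1. At least `c X` pairs of integers `d, d' ≤ X` have `d d' = (2 q m)^2 + 1` squarefree, `m > 1`.
2. For almost all `X` the residues modulo `k` of `(Ω(d), Ω(d'))` are equidistributed over `pairs`, up
   to `o(X)`.
3. For each residue class `j` modulo `k`, every `ε > 0` and almost all `X`, `count q k j X` is at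
   least `X / (log X)^(2 log 2 + ε)`.
4. For each residue class `j` modulo `k`, every `δ > 0` and all large `X`, `count q k j X` is at
   least `X^(1 - δ)`. -/
theorem result (q : ℕ) (hq : q.Prime) (k : ℕ) (hk : 1 ≤ k) :
    (∃ c : ℝ, 0 < c ∧ ∃ X₀ : ℕ, ∀ X : ℕ, X₀ ≤ X → c * X ≤ ((pairs q 0 1 0 1 X).card : ℝ)) ∧
    (∀ (i j : ℕ) (s₁ s₂ s₃ s₄ : ℝ), 0 ≤ s₁ → s₁ < s₂ → s₂ ≤ 1 → 0 ≤ s₃ → s₃ < s₄ → s₄ ≤ 1 →
      ∀ ε : ℝ, 0 < ε → LogNull (fun X => ε * X <
        |(((pairs q s₁ s₂ s₃ s₄ X).filter (fun p => cardFactors p.1 ≡ i [MOD k] ∧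
          cardFactors p.2 ≡ j [MOD k])).card : ℝ) -
          1 / (k : ℝ) ^ 2 * ((pairs q s₁ s₂ s₃ s₄ X).card : ℝ)|)) ∧
    (∀ (j : ℕ) (ε : ℝ), 0 < ε →
      LogNull (fun X => (count q k j X : ℝ) < X / Real.log X ^ (2 * Real.log 2 + ε))) ∧
    ∀ (j : ℕ) (δ : ℝ), 0 < δ → ∃ X₀ : ℕ, ∀ X : ℕ, X₀ ≤ X → (X : ℝ) ^ (1 - δ) ≤ count q k j X := by
  have hq2 : 1 ≤ 2 * q := by have := hq.pos; omega
  refine ⟨Pool.Agent.W251.EX.lowPL (2 * q) hq2, ?_, ?_, ?_⟩
  · intro i j s₁ s₂ s₃ s₄ h1 h2 h3 h4 h5 h6 ε hε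
    exact Pool.Agent.W251.EX.outQ k (2 * q) hk hq2 i j s₁ s₂ s₃ s₄ ε h1 h2 h3 h4 h5 h6 hε
  · intro j ε hε
    exact Pool.Agent.W251.EX.outC (2 * q) hq2 k hk j ε hε
  · intro j δ hδ
    exact Pool.Agent.W251.EX.outCall (2 * q) hq2 k hk j δ hδ

end Pool.Agent.Results.MP_4b1228_nt.SquarefreeResidues
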